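import Pool.Agent.TH117.RFM.Common

/-!
# Geometric origin over finite fields: one common geometric constituent suffices
-/

set_option autoImplicit false

open Pool.Agent.TH117.RFM

namespace Pool.Agent.Results.MP_80bee4_ag.CommonConstituent

theorem result {P Ω Λ : Type} [Field P] [Field Ω] [Algebra P Ω] [Field Λ]
    (T : ArithTheory P Ω Λ) (K : IntermediateField P Ω) (hK : FG ⊥ K) (V : Rp Λ K)
    (hV : T.Good V) : T.Var K V ↔ T.Meets V :=
  T.var_iff hK V hV

end Pool.Agent.Results.MP_80bee4_ag.CommonConstituent
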