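import Pool.Agent.TH117.RFM.Arith

/-!
# Geometric origin over finite fields in dimension at least two: affine spaces suffice
-/

set_option autoImplicit false

open Pool.Agent.TH117.RFM

namespace Pool.Agent.Results.MP_80bee4_ag.OnlyAffineSpaces

theorem result {P Ω Λ : Type} [Field P] [Finite P] [Field Ω] [Algebra P Ω] [IsAlgClosed Ω]
    [Field Λ] (T : ArithTheory P Ω Λ) (hL : T.Lafforgue) (N : ℕ) :
    T.HigherDim N ↔ T.AffineSpaces N :=
  T.higherDim_iff inferInstance hL N

end Pool.Agent.Results.MP_80bee4_ag.OnlyAffineSpaces
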